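import Pool.Agent.TH16.MI.Rad

/-!
# Project MI, job 3788 (part 2): the perimeter of a disc
-/

set_option autoImplicit false

open MeasureTheory Set Metric Filter Topology
open scoped ENNReal Real

noncomputable section

namespace Pool.Agent.TH16.MI

open Pool.Agent.TH304.MI

/-- The cutoff: `1` up to `ρ`, `0` from `ρ + η` on. -/
def cut (ρ η r : ℝ) : ℝ := Real.smoothTransition ((ρ + η - r) / η)

theorem cut_contDiff (ρ η : ℝ) : ContDiff ℝ 1 (cut ρ η) := by
  unfold cut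
  exact Real.smoothTransition.contDiff.comp
    ((contDiff_const.sub contDiff_id).div_const _)

theorem cut_anti {ρ η : ℝ} (hη : 0 < η) : Antitone (cut ρ η) := by
  intro x y hxy
  unfold cut
  apply Real.smoothTransition.monotone
  apply div_le_div_of_nonneg_right _ hη.le
  linarith

theorem cut_one {ρ η r : ℝ} (hη : 0 < η) (hr : r ≤ ρ) : cut ρ η r = 1 := by
  unfold cut
  apply Real.smoothTransition.one_of_one_le
  rw [le_div_iff₀ hη]
  linarith

theorem cut_zero {ρ η r : ℝ} (hη : 0 < η) (hr : ρ + η ≤ r) : cut ρ η r = 0 := by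
  unfold cut
  apply Real.smoothTransition.zero_of_nonpos
  apply div_nonpos_of_nonpos_of_nonneg _ hη.le
  linarith

theorem cut_nonneg (ρ η r : ℝ) : 0 ≤ cut ρ η r := Real.smoothTransition.nonneg _

theorem cut_le_one (ρ η r : ℝ) : cut ρ η r ≤ 1 := Real.smoothTransition.le_one _

theorem cut_deriv_nonpos {ρ η : ℝ} (hη : 0 < η) (r : ℝ) : deriv (cut ρ η) r ≤ 0 :=
  (cut_anti hη).deriv_nonpos

theorem cut_deriv_zero {ρ η r : ℝ} (hη : 0 < η) (hr : r < ρ ∨ ρ + η < r) :
    deriv (cut ρ η) r = 0 := by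
  rcases hr with hr | hr
  · have h : cut ρ η =ᶠ[𝓝 r] fun _ => (1 : ℝ) := by
      filter_upwards [Iio_mem_nhds hr] with x hx
      exact cut_one hη (le_of_lt hx)
    rw [h.deriv_eq]
    simp
  · have h : cut ρ η =ᶠ[𝓝 r] fun _ => (0 : ℝ) := by
      filter_upwards [Ioi_mem_nhds hr] with x hx
      exact cut_zero hη (le_of_lt hx)
    rw [h.deriv_eq]
    simp

theorem cut_deriv_continuous (ρ η : ℝ) : Continuous (deriv (cut ρ η)) :=
  (cut_contDiff ρ η).continuous_deriv_one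

/-- `∫_(0,1) (-χ') = 1`. -/
theorem cut_integral {ρ η : ℝ} (hρ : 0 < ρ) (hη : 0 < η) (h1 : ρ + η ≤ 1) :
    ∫ r in Ioo (0 : ℝ) 1, -deriv (cut ρ η) r = 1 := by
  have h2 : ∫ r in (0 : ℝ)..1, deriv (cut ρ η) r = cut ρ η 1 - cut ρ η 0 := by
    apply intervalIntegral.integral_eq_sub_of_hasDerivAt
    · intro x _
      exact (((cut_contDiff ρ η).differentiable (by norm_num)) x).hasDerivAt
    · exact (cut_deriv_continuous ρ η).intervalIntegrable _ _
  rw [cut_zero hη h1, cut_one hη hρ.le] at h2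
  rw [integral_neg, ← integral_Ioc_eq_integral_Ioo,
    ← intervalIntegral.integral_of_le (by norm_num : (0 : ℝ) ≤ 1), h2]
  norm_num

/-- Continuity of the two-dimensional divergence. -/
theorem dv2_continuous {Z : ℂ → ℂ} (hZ : ContDiff ℝ 1 Z) : Continuous (dv2 Z) := by
  unfold dv2
  have h := hZ.continuous_fderiv one_ne_zero
  exact (Complex.continuous_re.comp (h.clm_apply continuous_const)).add
    (Complex.continuous_im.comp (h.clm_apply continuous_const))

theorem dv2_compact {Z : ℂ → ℂ} (hZ : HasCompactSupport Z) : HasCompactSupport (dv2 Z) := by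
  apply HasCompactSupport.of_support_subset_isCompact hZ
  intro z hz
  by_contra h
  apply hz
  have h1 := notMem_tsupport_iff_eventuallyEq.mp h
  unfold dv2
  rw [h1.fderiv_eq]
  simp

theorem dv2_integrable {Z : ℂ → ℂ} (hZ : ContDiff ℝ 1 Z) (hc : HasCompactSupport Z) :
    Integrable (dv2 Z) :=
  (dv2_continuous hZ).integrable_of_hasCompactSupport (dv2_compact hc)

/-- Smoothness of the radial cutoff. -/
theorem cutn_contDiff {ρ η : ℝ} (hρ : 0 < ρ) (hη : 0 < η) :
    ContDiff ℝ 1 (fun z : ℂ => cut ρ η ‖z‖) := by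
  rw [contDiff_iff_contDiffAt]
  intro z
  by_cases hz : z = 0
  · subst hz
    apply (contDiffAt_const (c := (1 : ℝ))).congr_of_eventuallyEq
    filter_upwards [ball_mem_nhds (0 : ℂ) hρ] with w hw
    rw [mem_ball, dist_zero_right] at hw
    exact cut_one hη hw.le
  · exact ((cut_contDiff ρ η).contDiffAt (x := ‖z‖)).comp z (contDiffAt_norm ℝ hz)

/-- The cut field. -/
def CF (ρ η : ℝ) (Z : ℂ → ℂ) (z : ℂ) : ℂ := ((cut ρ η ‖z‖ : ℝ) : ℂ) * Z z

theorem CF_fl {b : ℕ} {ρ η : ℝ} (hρ : 0 < ρ) (hη : 0 < η) {Z : ℂ → ℂ} (hZ : Fl2 b D1 Z) :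
    Fl2 b D1 (CF ρ η Z) := by
  have hsub : tsupport (CF ρ η Z) ⊆ tsupport Z := by
    apply closure_mono
    intro z hz h0
    apply hz
    simp [CF, h0]
  refine ⟨?_, ?_, ?_, ?_⟩
  · have h2 : CF ρ η Z = fun w : ℂ => (cut ρ η ‖w‖) • Z w := by
      funext w
      rw [Complex.real_smul]
      rfl
    rw [h2]
    exact (cutn_contDiff hρ hη).smul hZ.cd
  · exact hZ.cs.mono (fun z hz h0 => hz (by simp [CF, h0]))
  · exact hsub.trans hZ.sub
  · intro z hz
    unfold CF
    rw [norm_mul, Complex.norm_real, Real.norm_eq_abs, abs_of_nonneg (cut_nonneg _ _ _)]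
    calc cut ρ η ‖z‖ * ‖Z z‖ ≤ 1 * ‖Z z‖ :=
          mul_le_mul_of_nonneg_right (cut_le_one _ _ _) (norm_nonneg _)
      _ = ‖Z z‖ := one_mul _
      _ ≤ _ := hZ.bd z hz

/-- The pointwise inequality. -/
theorem cut_dv {b : ℕ} {ρ η : ℝ} (hρ : 0 < ρ) (hη : 0 < η) {Z : ℂ → ℂ} (hZ : Fl2 b D1 Z)
    {z : ℂ} (hz : ‖z‖ < 1) :
    cut ρ η ‖z‖ * dv2 Z z ≤ dv2 (CF ρ η Z) z + (-deriv (cut ρ η) ‖z‖) * (1 - ‖z‖) ^ b := by
  have hk : 0 ≤ -deriv (cut ρ η) ‖z‖ := by
    have := cut_deriv_nonpos (ρ := ρ) hη ‖z‖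
    linarith
  by_cases h0 : z = 0
  · have h1 : CF ρ η Z =ᶠ[𝓝 z] Z := by
      have hm : ball (0 : ℂ) ρ ∈ 𝓝 z := by
        rw [h0]
        exact ball_mem_nhds _ hρ
      filter_upwards [hm] with w hw
      rw [mem_ball, dist_zero_right] at hw
      unfold CF
      rw [cut_one hη hw.le]
      simp
    have h2 : dv2 (CF ρ η Z) z = dv2 Z z := by
      unfold dv2
      rw [h1.fderiv_eq]
    have h3 : cut ρ η ‖z‖ = 1 := by
      rw [h0, norm_zero]
      exact cut_one hη hρ.le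
    rw [h2, h3, one_mul]
    have : 0 ≤ (-deriv (cut ρ η) ‖z‖) * (1 - ‖z‖) ^ b :=
      mul_nonneg hk (pow_nonneg (by linarith) _)
    linarith
  · have hd : HasDerivAt (cut ρ η) (deriv (cut ρ η) ‖z‖) ‖z‖ :=
      (((cut_contDiff ρ η).differentiable (by norm_num)) ‖z‖).hasDerivAt
    have hc := hd.comp_hasFDerivAt z (norm_hasFDerivAt h0)
    have h3 := dv2_mul (h := fun w : ℂ => cut ρ η ‖w‖) (F := Z) hc
      ((hZ.cd.differentiable (by norm_num)) z)
    have h4 : dv2 (CF ρ η Z) z = dv2 (fun w : ℂ => ((cut ρ η ‖w‖ : ℝ) : ℂ) * Z w) z := rfl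
    rw [h4, h3, smul_apply, smul_eq_mul]
    have hdn : DifferentiableAt ℝ (fun w : ℂ => ‖w‖) z := by
      have h : ContDiffAt ℝ 1 (fun w : ℂ => ‖w‖) z := contDiffAt_norm ℝ h0
      exact h.differentiableAt (by norm_num)
    have h5 : |fderiv ℝ (fun w : ℂ => ‖w‖) z (Z z)| ≤ ‖Z z‖ := by
      have h6 := (fderiv ℝ (fun w : ℂ => ‖w‖) z).le_opNorm (Z z)
      rw [norm_fderiv_norm hdn, one_mul] at h6
      exact h6
    have h7 : fderiv ℝ (fun w : ℂ => ‖w‖) z (Z z) ≤ (1 - ‖z‖) ^ b :=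
      (le_abs_self _).trans (h5.trans (hZ.bd z hz))
    have h8 := mul_le_mul_of_nonneg_left h7 hk
    linarith

/-- The integrated inequality. -/
theorem cut_int (hpol : S_pol) (hdz : S_dz) {b : ℕ} {ρ η : ℝ} (hρ : 0 < ρ) (hη : 0 < η)
    (h1 : ρ + η ≤ 1) {Z : ℂ → ℂ} (hZ : Fl2 b D1 Z) :
    ∫ z in D1, cut ρ η ‖z‖ * dv2 Z z ≤ 2 * π * (ρ + η) * (1 - ρ) ^ b := by
  have hD : MeasurableSet D1 := measurableSet_ball
  have hDf : volume D1 ≠ ⊤ := measure_ball_lt_top.ne
  have hW := CF_fl hρ hη hZ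
  have hkc : Continuous (fun r : ℝ => (-deriv (cut ρ η) r) * (1 - r) ^ b) :=
    (cut_deriv_continuous ρ η).neg.mul ((continuous_const.sub continuous_id).pow b)
  have hkn : Continuous (fun z : ℂ => (-deriv (cut ρ η) ‖z‖) * (1 - ‖z‖) ^ b) :=
    hkc.comp continuous_norm
  have hki : IntegrableOn (fun z : ℂ => (-deriv (cut ρ η) ‖z‖) * (1 - ‖z‖) ^ b) D1 := by
    apply (hkn.continuousOn.integrableOn_compact (isCompact_closedBall (0 : ℂ) 1)).mono_set
    exact ball_subset_closedBall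
  have hWi : IntegrableOn (dv2 (CF ρ η Z)) D1 := (dv2_integrable hW.cd hW.cs).integrableOn
  have hci : IntegrableOn (fun z : ℂ => cut ρ η ‖z‖ * dv2 Z z) D1 := by
    have hc : Continuous (fun z : ℂ => cut ρ η ‖z‖ * dv2 Z z) :=
      ((cut_contDiff ρ η).continuous.comp continuous_norm).mul (dv2_continuous hZ.cd)
    apply (hc.continuousOn.integrableOn_compact (isCompact_closedBall (0 : ℂ) 1)).mono_set
    exact ball_subset_closedBall
  have hstep1 : ∫ z in D1, cut ρ η ‖z‖ * dv2 Z z ≤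
      ∫ z in D1, (dv2 (CF ρ η Z) z + (-deriv (cut ρ η) ‖z‖) * (1 - ‖z‖) ^ b) := by
    apply setIntegral_mono_on hci (hWi.add hki) hD
    intro z hz
    rw [D1, mem_ball, dist_zero_right] at hz
    exact cut_dv hρ hη hZ hz
  rw [integral_add hWi hki, hdz b _ hW, zero_add] at hstep1
  obtain ⟨hm, hal, hpl⟩ := hpol D1 hD subset_rfl (fun r => (-deriv (cut ρ η) r) * (1 - r) ^ b)
    hkc.measurable hki
  rw [hpl] at hstep1
  refine hstep1.trans ?_
  have hE : ∫ r in Ioo (0 : ℝ) 1, (2 * π * (ρ + η) * (1 - ρ) ^ b) * (-deriv (cut ρ η) r) =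
      2 * π * (ρ + η) * (1 - ρ) ^ b := by
    rw [integral_const_mul, cut_integral hρ hη h1, mul_one]
  rw [← hE]
  have hdi : IntegrableOn (fun r : ℝ => (-deriv (cut ρ η) r)) (Ioo (0 : ℝ) 1) :=
    ((cut_deriv_continuous ρ η).neg.integrableOn_Icc (a := 0) (b := 1)).mono_set
      Ioo_subset_Icc_self
  have hpt : ∀ r ∈ Ioo (0 : ℝ) 1, (-deriv (cut ρ η) r) * (1 - r) ^ b * r * al D1 r ≤
      (2 * π * (ρ + η) * (1 - ρ) ^ b) * (-deriv (cut ρ η) r) := by
    intro r hr
    by_cases hz : deriv (cut ρ η) r = 0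
    · simp [hz]
    · have hr1 : ρ ≤ r := by
        by_contra h
        exact hz (cut_deriv_zero hη (Or.inl (not_le.mp h)))
      have hr2 : r ≤ ρ + η := by
        by_contra h
        exact hz (cut_deriv_zero hη (Or.inr (not_le.mp h)))
      have hk : 0 ≤ -deriv (cut ρ η) r := by
        have := cut_deriv_nonpos (ρ := ρ) hη r
        linarith
      have hp : (1 - r) ^ b ≤ (1 - ρ) ^ b := pow_le_pow_left₀ (by linarith [hr.2]) (by linarith) b
      have hp0 : 0 ≤ (1 - r) ^ b := pow_nonneg (by linarith [hr.2]) b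
      have h3 : (1 - r) ^ b * r ≤ (1 - ρ) ^ b * (ρ + η) :=
        mul_le_mul hp hr2 hr.1.le (hp0.trans hp)
      have h4 : (1 - r) ^ b * r * al D1 r ≤ (1 - ρ) ^ b * (ρ + η) * (2 * π) :=
        mul_le_mul h3 (hal r).2 (hal r).1 ((mul_nonneg hp0 hr.1.le).trans h3)
      have h5 := mul_le_mul_of_nonneg_left h4 hk
      calc (-deriv (cut ρ η) r) * (1 - r) ^ b * r * al D1 r
          = (-deriv (cut ρ η) r) * ((1 - r) ^ b * r * al D1 r) := by ring
        _ ≤ (-deriv (cut ρ η) r) * ((1 - ρ) ^ b * (ρ + η) * (2 * π)) := h5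
        _ = _ := by ring
  apply setIntegral_mono_on _ (hdi.const_mul _) measurableSet_Ioo hpt
  refine Integrable.mono' (hdi.const_mul (2 * π * (ρ + η) * (1 - ρ) ^ b)) ?_ ?_
  · exact ((hkc.measurable.mul measurable_id).mul hm).aestronglyMeasurable
  · rw [ae_restrict_iff' measurableSet_Ioo]
    apply Eventually.of_forall
    intro r hr
    rw [Real.norm_eq_abs, abs_of_nonneg]
    · exact hpt r hr
    · have hk : 0 ≤ -deriv (cut ρ η) r := by
        have := cut_deriv_nonpos (ρ := ρ) hη r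
        linarith
      have hp0 : 0 ≤ (1 - r) ^ b := pow_nonneg (by linarith [hr.2]) b
      exact mul_nonneg (mul_nonneg (mul_nonneg hk hp0) hr.1.le) (hal r).1

theorem t_disc (hpol : S_pol) (hdz : S_dz) : S_disc := by
  intro b ρ hρ0 hρ1 Z hZ
  have hDf : volume D1 ≠ ⊤ := measure_ball_lt_top.ne
  set η : ℕ → ℝ := fun n => (1 - ρ) * (1 / ((n : ℝ) + 1)) with hηdef
  have hη0 : ∀ n, 0 < η n := fun n => mul_pos (by linarith) (by positivity)
  have hη1 : ∀ n, ρ + η n ≤ 1 := by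
    intro n
    have h1 : 1 / ((n : ℝ) + 1) ≤ 1 := by
      rw [div_le_one (by positivity)]
      have : (0 : ℝ) ≤ n := Nat.cast_nonneg n
      linarith
    have h2 : (1 - ρ) * (1 / ((n : ℝ) + 1)) ≤ (1 - ρ) * 1 :=
      mul_le_mul_of_nonneg_left h1 (by linarith)
    simp only [hηdef]
    linarith
  have hηt : Tendsto η atTop (𝓝 0) := by
    have := (tendsto_one_div_add_atTop_nhds_zero_nat (𝕜 := ℝ)).const_mul (1 - ρ)
    rwa [mul_zero] at this
  have hbound : ∀ n, ∫ z in D1, cut ρ (η n) ‖z‖ * dv2 Z z ≤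
      2 * π * (ρ + η n) * (1 - ρ) ^ b := fun n =>
    cut_int hpol hdz hρ0 (hη0 n) (hη1 n) hZ
  have hlim1 : Tendsto (fun n => 2 * π * (ρ + η n) * (1 - ρ) ^ b) atTop
      (𝓝 (2 * π * ρ * (1 - ρ) ^ b)) := by
    have h := ((hηt.const_add ρ).const_mul (2 * π)).mul_const ((1 - ρ) ^ b)
    rwa [add_zero] at h
  have hlim2 : Tendsto (fun n => ∫ z in D1, cut ρ (η n) ‖z‖ * dv2 Z z) atTop
      (𝓝 (∫ z in D1, (closedBall (0 : ℂ) ρ).indicator (dv2 Z) z)) := by
    apply tendsto_integral_of_dominated_convergence (fun z => ‖dv2 Z z‖)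
    · intro n
      have hc : Continuous (fun z : ℂ => cut ρ (η n) ‖z‖ * dv2 Z z) :=
        ((cut_contDiff ρ (η n)).continuous.comp continuous_norm).mul (dv2_continuous hZ.cd)
      exact hc.aestronglyMeasurable
    · exact (dv2_integrable hZ.cd hZ.cs).norm.integrableOn
    · intro n
      apply Eventually.of_forall
      intro z
      rw [norm_mul, Real.norm_eq_abs, abs_of_nonneg (cut_nonneg _ _ _)]
      exact mul_le_of_le_one_left (norm_nonneg _) (cut_le_one _ _ _)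
    · apply Eventually.of_forall
      intro z
      by_cases hz : z ∈ closedBall (0 : ℂ) ρ
      · rw [indicator_of_mem hz]
        have hz' : ‖z‖ ≤ ρ := by simpa using hz
        have : (fun n => cut ρ (η n) ‖z‖ * dv2 Z z) = fun _ => dv2 Z z := by
          funext n
          rw [cut_one (hη0 n) hz', one_mul]
        rw [this]
        exact tendsto_const_nhds
      · rw [indicator_of_notMem hz]
        have hz' : ρ < ‖z‖ := by simpa using hz
        have hev : ∀ᶠ n in atTop, η n < ‖z‖ - ρ :=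
          hηt.eventually (Iio_mem_nhds (by linarith))
        apply tendsto_const_nhds.congr'
        filter_upwards [hev] with n hn
        rw [cut_zero (hη0 n) (by linarith), zero_mul]
  have hfin := le_of_tendsto_of_tendsto' hlim2 hlim1 hbound
  have hEq : ∫ z in D1, (closedBall (0 : ℂ) ρ).indicator (dv2 Z) z = ∫ z in ball (0 : ℂ) ρ,
      dv2 Z z := by
    rw [setIntegral_indicator measurableSet_closedBall]
    apply setIntegral_congr_set
    have h1 : D1 ∩ closedBall (0 : ℂ) ρ = closedBall (0 : ℂ) ρ := by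
      apply inter_eq_right.mpr
      exact closedBall_subset_ball hρ1
    have h2 : volume (sphere (0 : ℂ) ρ) = 0 := Measure.addHaar_sphere volume 0 ρ
    rw [h1, ← ball_union_sphere]
    exact union_ae_eq_left_of_ae_eq_empty (ae_eq_empty.mpr h2)
  rwa [hEq] at hfin

end Pool.Agent.TH16.MI
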