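import Pool.Agent.TH304.MI.Stm

/-!
# Project MI, job 3788 (part 1): smooth radial fields
-/

set_option autoImplicit false

open MeasureTheory Set Metric Filter Topology
open scoped ENNReal Real

noncomputable section

namespace Pool.Agent.TH16.MI

open Pool.Agent.TH304.MI

/-- A function with compact support inside `(0,1)` vanishes near any point outside. -/
theorem ev_zero {N : ℝ → ℝ} (hs : tsupport N ⊆ Ioo (0 : ℝ) 1) {r : ℝ} (hr : r ∉ Ioo (0 : ℝ) 1) :
    N =ᶠ[𝓝 r] 0 := by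
  have h : r ∉ tsupport N := fun h => hr (hs h)
  exact notMem_tsupport_iff_eventuallyEq.mp h

/-- The derivative of the norm. -/
theorem norm_hasFDerivAt {z : ℂ} (hz : z ≠ 0) :
    HasFDerivAt (fun w : ℂ => ‖w‖) (fderiv ℝ (fun w : ℂ => ‖w‖) z) z := by
  have h : ContDiffAt ℝ 1 (fun w : ℂ => ‖w‖) z := contDiffAt_norm ℝ hz
  exact (h.differentiableAt (by norm_num)).hasFDerivAt

theorem fderiv_norm_apply_self {z : ℂ} (hz : z ≠ 0) :
    fderiv ℝ (fun w : ℂ => ‖w‖) z z = ‖z‖ := by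
  have h : ContDiffAt ℝ 1 (fun w : ℂ => ‖w‖) z := contDiffAt_norm ℝ hz
  exact (h.differentiableAt (by norm_num)).fderiv_norm_self

/-- `dv2` of a product `h z * F z` with `h` real valued. -/
theorem dv2_mul {h : ℂ → ℝ} {F : ℂ → ℂ} {z : ℂ} {h' : ℂ →L[ℝ] ℝ}
    (hh : HasFDerivAt h h' z) (hF : DifferentiableAt ℝ F z) :
    dv2 (fun w => ((h w : ℝ) : ℂ) * F w) z = h z * dv2 F z + h' (F z) := by
  have h1 : HasFDerivAt (fun w => h w • F w) (h z • fderiv ℝ F z + h'.smulRight (F z)) z :=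
    hh.smul hF.hasFDerivAt
  have h2 : (fun w => ((h w : ℝ) : ℂ) * F w) = (fun w => h w • F w) := by
    funext w
    rw [Complex.real_smul]
  unfold dv2
  rw [h2, h1.fderiv]
  have h3 : h' (F z) = (F z).re * h' 1 + (F z).im * h' Complex.I := by
    have h4 : F z = (F z).re • (1 : ℂ) + (F z).im • Complex.I := by
      apply Complex.ext <;> simp
    conv_lhs => rw [h4]
    rw [map_add, map_smul, map_smul, smul_eq_mul, smul_eq_mul]
  rw [h3]
  simp only [add_apply, smul_apply,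
    ContinuousLinearMap.smulRight_apply, Complex.add_re, Complex.add_im, Complex.smul_re,
    Complex.smul_im, smul_eq_mul]
  ring

theorem dv2_id (z : ℂ) : dv2 (fun w => w) z = 2 := by
  unfold dv2
  rw [show (fun w : ℂ => w) = id from rfl, fderiv_id]
  simp
  norm_num

/-- The radial field. -/
def RF (N : ℝ → ℝ) (z : ℂ) : ℂ := ((N ‖z‖ / ‖z‖ ^ 2 : ℝ) : ℂ) * z

theorem RF_support (N : ℝ → ℝ) :
    tsupport (RF N) ⊆ (fun z : ℂ => ‖z‖) ⁻¹' tsupport N := by
  apply closure_minimal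
  · intro z hz
    apply subset_tsupport N
    intro h0
    apply hz
    simp [RF, h0]
  · exact (isClosed_tsupport N).preimage continuous_norm

theorem RF_evzero (N : ℝ → ℝ) (hs : tsupport N ⊆ Ioo (0 : ℝ) 1) :
    RF N =ᶠ[𝓝 (0 : ℂ)] 0 := by
  have h1 : N =ᶠ[𝓝 ‖(0 : ℂ)‖] 0 := ev_zero hs (by simp)
  have h2 : ∀ᶠ z : ℂ in 𝓝 (0 : ℂ), N ‖z‖ = (0 : ℝ → ℝ) ‖z‖ :=
    (continuous_norm.tendsto (0 : ℂ)).eventually h1
  filter_upwards [h2] with z hz
  simp [RF, hz]

theorem t_rad : S_rad := by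
  intro N hN hcs hs
  have hsup := RF_support N
  refine ⟨?_, ?_, ?_, ?_, ?_⟩
  · change ContDiff ℝ 1 (RF N)
    rw [contDiff_iff_contDiffAt]
    intro z
    by_cases hz : z = 0
    · subst hz
      exact (contDiffAt_const (c := (0 : ℂ))).congr_of_eventuallyEq (RF_evzero N hs)
    · have hn : ContDiffAt ℝ 1 (fun w : ℂ => ‖w‖) z := contDiffAt_norm ℝ hz
      have h1 : ContDiffAt ℝ 1 (fun w : ℂ => N ‖w‖ / ‖w‖ ^ 2) z := by
        apply ContDiffAt.div
        · exact (hN.contDiffAt (x := ‖z‖)).comp z hn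
        · exact hn.pow 2
        · exact pow_ne_zero 2 (norm_ne_zero_iff.mpr hz)
      have h2 : RF N = fun w : ℂ => (N ‖w‖ / ‖w‖ ^ 2) • w := by
        funext w
        rw [Complex.real_smul]
        rfl
      rw [h2]
      exact h1.smul contDiffAt_id
  · change HasCompactSupport (RF N)
    apply HasCompactSupport.of_support_subset_isCompact (isCompact_closedBall (0 : ℂ) 1)
    intro z hz
    have h1 := hs (hsup (subset_tsupport _ hz))
    rw [mem_closedBall, dist_zero_right]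
    exact h1.2.le
  · change tsupport (RF N) ⊆ D1 \ {0}
    intro z hz
    have h1 := hs (hsup hz)
    refine ⟨?_, ?_⟩
    · rw [D1, mem_ball, dist_zero_right]
      exact h1.2
    · intro h0
      rw [mem_singleton_iff] at h0
      rw [h0] at h1
      simp at h1
  · intro z
    rw [norm_mul, Complex.norm_real, Real.norm_eq_abs, abs_div, abs_of_nonneg (sq_nonneg ‖z‖)]
    by_cases hz : z = 0
    · simp [hz]
    · have : ‖z‖ ≠ 0 := norm_ne_zero_iff.mpr hz
      field_simp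
  · intro z
    change dv2 (RF N) z = deriv N ‖z‖ / ‖z‖
    by_cases hz : z = 0
    · subst hz
      have h1 : dv2 (RF N) 0 = 0 := by
        unfold dv2
        rw [(RF_evzero N hs).fderiv_eq]
        simp
      rw [h1]
      simp
    · have hn0 : ‖z‖ ≠ 0 := norm_ne_zero_iff.mpr hz
      have hN1 : HasDerivAt N (deriv N ‖z‖) ‖z‖ :=
        ((hN.differentiable (by norm_num)) ‖z‖).hasDerivAt
      have hq : HasDerivAt (fun r : ℝ => N r / r ^ 2)
          ((deriv N ‖z‖ * ‖z‖ ^ 2 - N ‖z‖ * (2 * ‖z‖)) / (‖z‖ ^ 2) ^ 2) ‖z‖ := by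
        have h2 : HasDerivAt (fun r : ℝ => r ^ 2) (2 * ‖z‖) ‖z‖ := by
          simpa using hasDerivAt_pow 2 ‖z‖
        exact hN1.div h2 (pow_ne_zero 2 hn0)
      have hc := hq.comp_hasFDerivAt z (norm_hasFDerivAt hz)
      have h3 := dv2_mul (h := fun w : ℂ => N ‖w‖ / ‖w‖ ^ 2) (F := fun w => w) hc
        differentiableAt_id
      have h4 : dv2 (RF N) z = dv2 (fun w : ℂ => ((N ‖w‖ / ‖w‖ ^ 2 : ℝ) : ℂ) * w) z := rfl
      rw [h4, h3, dv2_id]
      rw [smul_apply, fderiv_norm_apply_self hz, smul_eq_mul]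
      field_simp
      ring

end Pool.Agent.TH16.MI
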